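import Pool.Agent.W2helper50.MG.Stm

/-!
# The planted predictions (piece PLANT)
-/

set_option autoImplicit false

namespace Pool.Agent.W2helper47.MG

open Filter Pool.Agent.NPC Pool.Agent.H628R3.RO Pool.Agent.W2helper50.MG
open Pool.Agent.W2helper61.Mes (ones str pre IsDensity Names Approx LB Acc)

theorem rep_inj : ∀ (a b : ℕ) (l l' : List Bool),
    List.replicate a true ++ false :: l = List.replicate b true ++ false :: l' → a = b ∧ l = l' := by
  intro a
  induction a with
  | zero =>
    intro b l l' h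
    cases b with
    | zero => simpa using h
    | succ b => simp [List.replicate_succ] at h
  | succ a ih =>
    intro b l l' h
    cases b with
    | zero => simp [List.replicate_succ] at h
    | succ b =>
      simp only [List.replicate_succ, List.cons_append, List.cons.injEq, true_and] at h
      obtain ⟨h1, h2⟩ := ih b l l' h
      exact ⟨by rw [h1], h2⟩

theorem pl_inj {m i t m' i' t' : ℕ} (h : pl m i t = pl m' i' t') : m = m' ∧ i = i' ∧ t = t' := by
  obtain ⟨h1, h2⟩ := rep_inj _ _ _ _ h
  obtain ⟨h3, h4⟩ := rep_inj _ _ _ _ h2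
  have h5 := congrArg List.length h4
  rw [List.length_replicate, List.length_replicate] at h5
  exact ⟨Nat.pow_right_injective (le_refl 2) h1, h3, h5⟩

theorem length_pl (m i t : ℕ) : 2 ^ m < (pl m i t).length := by
  unfold pl
  simp only [List.length_append, List.length_replicate, List.length_cons]
  omega

/-- fixed points by recursion on the length -/
theorem exists_fix (F : Oracle → Oracle)
    (hF : ∀ C C' : Oracle, ∀ v : List Bool, (∀ u : List Bool, u.length < v.length → C u = C' u) →
      F C v = F C' v) : ∃ C : Oracle, F C = C := by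
  let Bn : ℕ → Oracle := fun n => F^[n] (fun _ => false)
  have hs : ∀ n, Bn (n + 1) = F (Bn n) := fun n => Function.iterate_succ_apply' F n _
  have key : ∀ n m (v : List Bool), v.length < n → v.length < m → Bn n v = Bn m v := by
    intro n
    induction n with
    | zero => intro m v hv; omega
    | succ n ih =>
      intro m v hn hm
      obtain ⟨m, rfl⟩ : ∃ m', m = m' + 1 := ⟨m - 1, by omega⟩
      rw [hs, hs]
      exact hF _ _ v fun u hu => ih m u (by omega) (by omega)
  refine ⟨fun v => Bn (v.length + 1) v, ?_⟩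
  funext v
  have h1 : F (fun v => Bn (v.length + 1) v) v = F (Bn v.length) v :=
    hF _ _ v fun u hu => key _ _ u (by omega) hu
  rw [h1, ← hs]

/-- the conditions on the place of a planted bit -/
def Cnd (g : ℕ → ℕ) (lb : ℕ → ℕ → ℕ) (m i t : ℕ) : Prop :=
  act g m ∧ i < st g m ∧ t < 3 * st g m ∧ t < 2 ^ m ∧ lb i m ≤ 2 ^ m

open Classical in
/-- the operator whose fixed point is the planted oracle -/
noncomputable def Op (g : ℕ → ℕ) (e : ℕ → Alg × Polynomial ℕ) (lb : ℕ → ℕ → ℕ) (B C : Oracle) :
    Oracle := fun y =>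
  if ∃ m i t, y = pl m i t ∧ Cnd g lb m i t then
    decide (∃ m i t, y = pl m i t ∧ Cnd g lb m i t ∧ Acc (e i).1 (e i).2 C (str (2 ^ m - 1 + t)))
  else B y

theorem op_congr {g : ℕ → ℕ} {e : ℕ → Alg × Polynomial ℕ} {lb : ℕ → ℕ → ℕ} (h : LB e lb)
    (B C C' : Oracle) (v : List Bool) (hC : ∀ u : List Bool, u.length < v.length → C u = C' u) :
    Op g e lb B C v = Op g e lb B C' v := by
  classical
  unfold Op
  congr 1
  congr 1
  refine propext (exists_congr fun m => exists_congr fun i => exists_congr fun t =>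
    and_congr_right fun hv => and_congr_right fun hc => ?_)
  obtain ⟨-, -, -, h4, h5⟩ := hc
  have h6 : (str (2 ^ m - 1 + t)).length = m := by
    rw [Pool.Agent.W2helper61.Mes.length_str_eq]
    have : 0 < 2 ^ m := by positivity
    rw [pow_succ]
    omega
  refine h.1 i C C' _ fun u hu => hC u ?_
  rw [h6] at hu
  rw [hv]
  exact lt_of_le_of_lt (hu.trans h5) (length_pl m i t)

theorem plant : PLANT := by
  classical
  intro g e lb h
  choose Φ hΦ using fun B => exists_fix (Op g e lb B) fun C C' v hv => op_congr h B C C' v hv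
  refine ⟨Φ, fun B y hy => ?_, fun B m i t h1 h2 h3 h4 h5 => ?_⟩
  · rw [← hΦ B]
    show (if ∃ m i t, y = pl m i t ∧ Cnd g lb m i t then _ else B y) = B y
    rw [if_neg]
    rintro ⟨m, i, t, hy', hc⟩
    exact hy ⟨m, i, t, hc.1, hc.2.1, hc.2.2.1, hy'⟩
  · have hc : Cnd g lb m i t := ⟨h1, h2, h3, h4, h5⟩
    have h6 : Φ B (pl m i t) = decide (∃ m' i' t', pl m i t = pl m' i' t' ∧ Cnd g lb m' i' t' ∧
        Acc (e i').1 (e i').2 (Φ B) (str (2 ^ m' - 1 + t'))) := by
      conv_lhs => rw [← hΦ B]
      show (if ∃ m' i' t', pl m i t = pl m' i' t' ∧ Cnd g lb m' i' t' then _ else B (pl m i t)) = _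
      rw [if_pos ⟨m, i, t, rfl, hc⟩]
    rw [h6, decide_eq_true_iff]
    constructor
    · rintro ⟨m', i', t', he, -, ha⟩
      obtain ⟨rfl, rfl, rfl⟩ := pl_inj he
      exact ha
    · intro ha
      exact ⟨m, i, t, rfl, hc, ha⟩

end Pool.Agent.W2helper47.MG
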